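import Mathlib
import Pool.Agent.H66.VNum2

set_option autoImplicit false

namespace Pool.Agent.Results.MP_ad771b_al.Counter
open Pool.Agent.H66.VNum MvPolynomial

/-- For `I = (y^2, y z^2, x z^4)` the prime `p = (x, y)` is a maximal stable prime, the initial
degree is 2, and `v_p(I^k) / k` tends to 3. -/
theorem result (K : Type) [Field K] :
    ∃ I p : Ideal (MvPolynomial (Fin 3) K), I ≠ ⊥ ∧ I ≠ ⊤ ∧ IsHomog I ∧
      Maximal (· ∈ AssInf I) p ∧ alpha I = 2 ∧
      Filter.Tendsto (fun k : ℕ => (vloc (I ^ k) p : ℝ) / k) Filter.atTop (nhds 3) :=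
  ⟨I2 K, pp K, I2_ne.1, I2_ne.2, homog_I2, max_pp, alpha_I2, lim_I2⟩

end Pool.Agent.Results.MP_ad771b_al.Counter
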